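import Mathlib

set_option autoImplicit false
set_option linter.style.haveILetI false

namespace Pool.Agent.H54KD

open TensorProduct

theorem etale_basis {A P L κ : Type*} [CommRing A] [CommRing P] [CommRing L] [Algebra A P]
    [Algebra A L] [Algebra P L] [IsScalarTower A P L] [Algebra.FormallyEtale P L]
    (b : Module.Basis κ P (Ω[P⁄A])) (y : κ → P)
    (hb : ∀ j, b j = KaehlerDifferential.D A P (y j)) :
    LinearIndependent L (fun j => KaehlerDifferential.D A L (algebraMap P L (y j))) := by
  have h1 := ((Algebra.TensorProduct.basis L b).map
    (KaehlerDifferential.tensorKaehlerEquivOfFormallyEtale A P L)).linearIndependent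
  convert h1 using 1
  funext j
  rw [Module.Basis.map_apply, Algebra.TensorProduct.basis_apply, hb,
    KaehlerDifferential.tensorKaehlerEquivOfFormallyEtale_apply,
    KaehlerDifferential.mapBaseChange_tmul, one_smul, KaehlerDifferential.map_D]

theorem etale_of_alg {P L : Type*} [CommRing P] [IsDomain P] [Field L] [CharZero L] [Algebra P L]
    (hinj : Function.Injective (algebraMap P L)) [Algebra.IsAlgebraic P L] :
    Algebra.FormallyEtale P L := by
  haveI : FaithfulSMul P L := (faithfulSMul_iff_algebraMap_injective P L).2 hinj
  letI : Algebra (FractionRing P) L := FractionRing.liftAlgebra P L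
  haveI : IsScalarTower P (FractionRing P) L := FractionRing.isScalarTower_liftAlgebra P L
  haveI : CharZero (FractionRing P) := (algebraMap (FractionRing P) L).charZero
  haveI : Algebra.IsAlgebraic (FractionRing P) L :=
    (IsFractionRing.comap_isAlgebraic_iff (A := P) (K := FractionRing P) (C := L)).1 inferInstance
  haveI : Algebra.IsSeparable (FractionRing P) L := inferInstance
  haveI : Algebra.FormallyEtale P (FractionRing P) :=
    Algebra.FormallyEtale.of_isLocalization (nonZeroDivisors P)
  haveI : Algebra.FormallyEtale (FractionRing P) L := Algebra.FormallyEtale.of_isSeparable _ _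
  exact Algebra.FormallyEtale.comp P (FractionRing P) L

/-- Package A -/
theorem lin_of_alg {L : Type} [Field L] [CharZero L] (A : Subring L) {ι : Type} [Finite ι]
    (x : ι → L) (h : AlgebraicIndependent A x) :
    LinearIndependent L (fun i => KaehlerDifferential.D A L (x i)) := by
  classical
  obtain ⟨t, hst, ht⟩ := exists_isTranscendenceBasis_superset (R := A) (s := Set.range x)
    h.coe_range
  letI : Algebra (MvPolynomial t A) L :=
    (MvPolynomial.aeval (R := A) (Subtype.val : t → L)).toRingHom.toAlgebra
  have hP : ∀ p : MvPolynomial t A, algebraMap (MvPolynomial t A) L p =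
      MvPolynomial.aeval (R := A) (Subtype.val : t → L) p := fun p => rfl
  haveI : IsScalarTower A (MvPolynomial t A) L := IsScalarTower.of_algebraMap_eq (fun a => by
    rw [hP]
    exact ((MvPolynomial.aeval (R := A) (Subtype.val : t → L)).commutes a).symm)
  have hinj : Function.Injective (algebraMap (MvPolynomial t A) L) := ht.1
  haveI := ht.isAlgebraic
  haveI halg : Algebra.IsAlgebraic (MvPolynomial t A) L := by
    refine Algebra.IsAlgebraic.of_ringHom_of_comp_eq (ht.1.aevalEquiv) (RingHom.id L)
      ht.1.aevalEquiv.surjective Function.injective_id ?_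
    refine RingHom.ext fun p => ?_
    exact ht.1.algebraMap_aevalEquiv p
  haveI : Algebra.FormallyEtale (MvPolynomial t A) L := etale_of_alg hinj
  have h0 := etale_basis (L := L) (KaehlerDifferential.mvPolynomialBasis A t)
    (fun j => MvPolynomial.X j) (fun j => KaehlerDifferential.mvPolynomialBasis_apply A t j)
  have h1 := h0.comp (fun i : ι => (⟨x i, hst ⟨i, rfl⟩⟩ : t)) (by
    intro i j hij
    exact h.injective (congrArg Subtype.val hij))
  have h2 : (fun i => KaehlerDifferential.D A L (x i)) = ((fun j : t => KaehlerDifferential.D A L
      (algebraMap (MvPolynomial t A) L (MvPolynomial.X j))) ∘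
        fun i : ι => (⟨x i, hst ⟨i, rfl⟩⟩ : t)) := by
    funext i
    show _ = KaehlerDifferential.D A L (algebraMap (MvPolynomial t A) L (MvPolynomial.X _))
    rw [hP, MvPolynomial.aeval_X]
  rw [h2]
  exact h1

end Pool.Agent.H54KD
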